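import Pool.Agent.W290.LG.Stm2

/-!
# Project LG: systems of constraints for the zeros of a polynomial
-/

set_option autoImplicit false

namespace Pool.Agent.W26.LG

open Pool.Agent Pool.Agent.NPC Pool.Agent.H881R2.Mat Pool.Agent.W290.LG

/-- renaming of the variables -/
def cmap (r : ℕ → ℕ) : ER.Con → ER.Con
  | .one i => .one (r i)
  | .add i j k => .add (r i) (r j) (r k)
  | .mul i j k => .mul (r i) (r j) (r k)

theorem holds_cmap {K : Type} [Field K] (v : ℕ → K) (r : ℕ → ℕ) (c : ER.Con) :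
    HoldsK v (cmap r c) ↔ HoldsK (fun m => v (r m)) c := by
  cases c <;> rfl

/-- The polynomial `p` is computed by a system of constraints. -/
def Comp {n : ℕ} (p : MvPolynomial (Fin n) ℤ) : Prop :=
  ∃ (S : List ER.Con) (o : ℕ), ∀ (K : Type) [Field K],
    (∀ v : ℕ → K, (∀ c ∈ S, HoldsK v c) →
      v o = MvPolynomial.aeval (fun i : Fin n => v (2 * (i : ℕ))) p) ∧
    (∀ a : ℕ → K, ∃ v : ℕ → K, (∀ c ∈ S, HoldsK v c) ∧ ∀ i, v (2 * i) = a i)

theorem comp_one {n : ℕ} : Comp (1 : MvPolynomial (Fin n) ℤ) := by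
  refine ⟨[.one 1], 1, fun K _ => ⟨fun v hv => ?_, fun a => ?_⟩⟩
  · have := hv (.one 1) (by simp)
    simpa [HoldsK] using this
  · refine ⟨fun m => if m % 2 = 0 then a (m / 2) else 1, ?_, ?_⟩
    · intro c hc
      simp only [List.mem_singleton] at hc
      subst hc
      simp [HoldsK]
    · intro i
      simp

theorem comp_zero {n : ℕ} : Comp (0 : MvPolynomial (Fin n) ℤ) := by
  refine ⟨[.add 1 1 1], 1, fun K _ => ⟨fun v hv => ?_, fun a => ?_⟩⟩
  · have := hv (.add 1 1 1) (by simp)
    simpa [HoldsK] using this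
  · refine ⟨fun m => if m % 2 = 0 then a (m / 2) else 0, ?_, ?_⟩
    · intro c hc
      simp only [List.mem_singleton] at hc
      subst hc
      simp [HoldsK]
    · intro i
      simp

theorem comp_neg_one {n : ℕ} : Comp (-1 : MvPolynomial (Fin n) ℤ) := by
  refine ⟨[.one 3, .add 5 5 5, .add 1 3 5], 1, fun K _ => ⟨fun v hv => ?_, fun a => ?_⟩⟩
  · have h1 := hv (.one 3) (by simp)
    have h2 := hv (.add 5 5 5) (by simp)
    have h3 := hv (.add 1 3 5) (by simp)
    simp only [HoldsK] at h1 h2 h3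
    have h4 : v 5 = 0 := by simpa using h2
    rw [h1, h4] at h3
    simp only [map_neg, map_one]
    exact eq_neg_of_add_eq_zero_left h3
  · refine ⟨fun m => if m % 2 = 0 then a (m / 2) else if m = 3 then 1 else if m = 5 then 0
      else -1, ?_, ?_⟩
    · intro c hc
      simp only [List.mem_cons, List.not_mem_nil, or_false] at hc
      rcases hc with hc | hc | hc <;> subst hc <;> simp [HoldsK]
    · intro i
      simp

theorem comp_X {n : ℕ} (i : Fin n) : Comp (MvPolynomial.X i : MvPolynomial (Fin n) ℤ) := by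
  refine ⟨[], 2 * (i : ℕ), fun K _ => ⟨fun v _ => ?_, fun a => ?_⟩⟩
  · simp
  · refine ⟨fun m => a (m / 2), ?_, ?_⟩
    · intro c hc
      simp at hc
    · intro i
      simp

/-- first renaming -/
def r1 (m : ℕ) : ℕ := if m % 2 = 0 then m else 3 * m - 2
/-- second renaming -/
def r2 (m : ℕ) : ℕ := if m % 2 = 0 then m else 3 * m

theorem r1_two (i : ℕ) : r1 (2 * i) = 2 * i := by simp [r1]
theorem r2_two (i : ℕ) : r2 (2 * i) = 2 * i := by simp [r2]

/-- merging two assignments -/
def merge {K : Type} (v1 v2 : ℕ → K) (x : K) (m : ℕ) : K :=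
  if m % 2 = 0 then v1 m else if m % 6 = 1 then v1 ((m + 2) / 3) else
    if m % 6 = 3 then v2 (m / 3) else x

theorem merge_r1 {K : Type} (v1 v2 : ℕ → K) (x : K) (m : ℕ) :
    merge v1 v2 x (r1 m) = v1 m := by
  unfold merge r1
  by_cases h : m % 2 = 0
  · simp [h]
  · rw [if_neg h, if_neg (by omega), if_pos (by omega)]
    congr 1
    omega

theorem merge_r2 {K : Type} (v1 v2 : ℕ → K) (h12 : ∀ i, v1 (2 * i) = v2 (2 * i)) (x : K) (m : ℕ) :
    merge v1 v2 x (r2 m) = v2 m := by
  unfold merge r2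
  by_cases h : m % 2 = 0
  · rw [if_pos h, if_pos h]
    have : m = 2 * (m / 2) := by omega
    rw [this]
    exact h12 _
  · rw [if_neg h, if_neg (by omega), if_neg (by omega), if_pos (by omega)]
    congr 1
    omega

theorem merge_five {K : Type} (v1 v2 : ℕ → K) (x : K) : merge v1 v2 x 5 = x := by
  simp [merge]

theorem merge_two {K : Type} (v1 v2 : ℕ → K) (x : K) (i : ℕ) :
    merge v1 v2 x (2 * i) = v1 (2 * i) := by
  simp [merge]

theorem comp_add {n : ℕ} {p q : MvPolynomial (Fin n) ℤ} (hp : Comp p) (hq : Comp q) :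
    Comp (p + q) := by
  obtain ⟨S1, o1, h1⟩ := hp
  obtain ⟨S2, o2, h2⟩ := hq
  refine ⟨S1.map (cmap r1) ++ S2.map (cmap r2) ++ [.add (r1 o1) (r2 o2) 5], 5,
    fun K _ => ⟨fun v hv => ?_, fun a => ?_⟩⟩
  · have e1 := (h1 K).1 (fun m => v (r1 m)) (fun c hc => (holds_cmap v r1 c).1
      (hv _ (by simp only [List.mem_append, List.mem_map]; exact Or.inl (Or.inl ⟨c, hc, rfl⟩))))
    have e2 := (h2 K).1 (fun m => v (r2 m)) (fun c hc => (holds_cmap v r2 c).1
      (hv _ (by simp only [List.mem_append, List.mem_map]; exact Or.inl (Or.inr ⟨c, hc, rfl⟩))))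
    have e3 := hv (.add (r1 o1) (r2 o2) 5) (by simp)
    simp only [HoldsK] at e3
    simp only [r1_two] at e1
    simp only [r2_two] at e2
    rw [map_add, ← e1, ← e2, e3]
  · obtain ⟨v1, g1, g1'⟩ := (h1 K).2 a
    obtain ⟨v2, g2, g2'⟩ := (h2 K).2 a
    have h12 : ∀ i, v1 (2 * i) = v2 (2 * i) := fun i => by rw [g1', g2']
    refine ⟨merge v1 v2 (v1 o1 + v2 o2), ?_, ?_⟩
    · intro c hc
      simp only [List.mem_append, List.mem_map, List.mem_singleton] at hc
      rcases hc with (⟨d, hd, rfl⟩ | ⟨d, hd, rfl⟩) | rfl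
      · rw [holds_cmap]
        simp only [merge_r1]
        exact g1 d hd
      · rw [holds_cmap]
        simp only [merge_r2 v1 v2 h12]
        exact g2 d hd
      · simp only [HoldsK, merge_r1, merge_r2 v1 v2 h12, merge_five]
    · intro i
      rw [merge_two, g1']

theorem comp_mul {n : ℕ} {p q : MvPolynomial (Fin n) ℤ} (hp : Comp p) (hq : Comp q) :
    Comp (p * q) := by
  obtain ⟨S1, o1, h1⟩ := hp
  obtain ⟨S2, o2, h2⟩ := hq
  refine ⟨S1.map (cmap r1) ++ S2.map (cmap r2) ++ [.mul (r1 o1) (r2 o2) 5], 5,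
    fun K _ => ⟨fun v hv => ?_, fun a => ?_⟩⟩
  · have e1 := (h1 K).1 (fun m => v (r1 m)) (fun c hc => (holds_cmap v r1 c).1
      (hv _ (by simp only [List.mem_append, List.mem_map]; exact Or.inl (Or.inl ⟨c, hc, rfl⟩))))
    have e2 := (h2 K).1 (fun m => v (r2 m)) (fun c hc => (holds_cmap v r2 c).1
      (hv _ (by simp only [List.mem_append, List.mem_map]; exact Or.inl (Or.inr ⟨c, hc, rfl⟩))))
    have e3 := hv (.mul (r1 o1) (r2 o2) 5) (by simp)
    simp only [HoldsK] at e3
    simp only [r1_two] at e1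
    simp only [r2_two] at e2
    rw [map_mul, ← e1, ← e2, e3]
  · obtain ⟨v1, g1, g1'⟩ := (h1 K).2 a
    obtain ⟨v2, g2, g2'⟩ := (h2 K).2 a
    have h12 : ∀ i, v1 (2 * i) = v2 (2 * i) := fun i => by rw [g1', g2']
    refine ⟨merge v1 v2 (v1 o1 * v2 o2), ?_, ?_⟩
    · intro c hc
      simp only [List.mem_append, List.mem_map, List.mem_singleton] at hc
      rcases hc with (⟨d, hd, rfl⟩ | ⟨d, hd, rfl⟩) | rfl
      · rw [holds_cmap]
        simp only [merge_r1]
        exact g1 d hd
      · rw [holds_cmap]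
        simp only [merge_r2 v1 v2 h12]
        exact g2 d hd
      · simp only [HoldsK, merge_r1, merge_r2 v1 v2 h12, merge_five]
    · intro i
      rw [merge_two, g1']

theorem comp_C {n : ℕ} (m : ℤ) : Comp (MvPolynomial.C m : MvPolynomial (Fin n) ℤ) := by
  induction m using Int.induction_on with
  | zero => simpa using comp_zero
  | succ i ih =>
    rw [map_add]
    exact comp_add ih (by simpa using comp_one)
  | pred i ih =>
    rw [map_sub, sub_eq_add_neg]
    exact comp_add ih (by simpa using comp_neg_one)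

theorem comp_all {n : ℕ} (p : MvPolynomial (Fin n) ℤ) : Comp p := by
  induction p using MvPolynomial.induction_on with
  | C a => exact comp_C a
  | add p q hp hq => exact comp_add hp hq
  | mul_X p i hp => exact comp_mul hp (comp_X i)

theorem t_G : Pool.Agent.W290.LG.S_G := by
  intro n P
  obtain ⟨S, o, h⟩ := comp_all P
  refine ⟨S ++ [.add o o o], fun K _ => ⟨?_, ?_⟩⟩
  · rintro ⟨v, hv⟩
    refine ⟨fun i => v (2 * (i : ℕ)), ?_⟩
    rw [← (h K).1 v (fun c hc => hv c (by simp [hc]))]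
    have := hv (.add o o o) (by simp)
    simpa [HoldsK] using this
  · rintro ⟨x, hx⟩
    obtain ⟨v, hv, hv'⟩ := (h K).2 (fun i => if hi : i < n then x ⟨i, hi⟩ else 0)
    refine ⟨v, fun c hc => ?_⟩
    rw [List.mem_append] at hc
    rcases hc with hc | hc
    · exact hv c hc
    · rw [List.mem_singleton] at hc
      subst hc
      have e := (h K).1 v hv
      have : (fun i : Fin n => v (2 * (i : ℕ))) = x := by
        funext i
        rw [hv']
        simp
      rw [this, hx] at e
      simp [HoldsK, e]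

end Pool.Agent.W26.LG
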